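import Pool.Agent.W648.UN.Stm

/-!
# UN-SA1 : the Banach algebras of smooth functions with weights
-/

set_option autoImplicit false

open MeasureTheory Set Filter Topology
open scoped ContDiff

noncomputable section

namespace Pool.Agent.W384.UN

open Pool.Agent.W648.UN

/-- supremum of the `k`-th derivative -/
def sd (k : ℕ) (f : ℝ → ℂ) : ℝ := ⨆ t, ‖iteratedDeriv k f t‖

lemma sd_nonneg (k : ℕ) (f : ℝ → ℂ) : 0 ≤ sd k f := Real.iSup_nonneg fun _ => norm_nonneg _

lemma sd_le {k : ℕ} {f : ℝ → ℂ} {B : ℝ} (h : ∀ t, ‖iteratedDeriv k f t‖ ≤ B) : sd k f ≤ B :=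
  ciSup_le h

/-- a submultiplicative weight -/
structure WW where
  w : ℕ → ℝ
  w0 : w 0 = 1
  pos : ∀ k, 0 < w k
  sub : ∀ j k, w (j + k) ≤ w j * w k

/-- the coefficients of the norm -/
def WW.c (W : WW) (k : ℕ) : ℝ := W.w k / (k.factorial : ℝ)

lemma WW.c_pos (W : WW) (k : ℕ) : 0 < W.c k :=
  div_pos (W.pos k) (by exact_mod_cast k.factorial_pos)

lemma WW.c_zero (W : WW) : W.c 0 = 1 := by simp [WW.c, W.w0]

lemma WW.c_mul (W : WW) (k i : ℕ) (h : i ≤ k) :
    W.c k * (k.choose i : ℝ) ≤ W.c i * W.c (k - i) := by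
  have h1 : ((k.choose i : ℕ) : ℝ) * (i.factorial : ℝ) * ((k - i).factorial : ℝ) =
      (k.factorial : ℝ) := by exact_mod_cast Nat.choose_mul_factorial_mul_factorial h
  have hk : (0 : ℝ) < k.factorial := by exact_mod_cast k.factorial_pos
  have hi : (0 : ℝ) < i.factorial := by exact_mod_cast i.factorial_pos
  have hki : (0 : ℝ) < (k - i).factorial := by exact_mod_cast (k - i).factorial_pos
  have h2 : (k.choose i : ℝ) / (k.factorial : ℝ) = 1 / (i.factorial * (k - i).factorial : ℝ) := by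
    rw [← h1]
    have hc : (0 : ℝ) < k.choose i := by exact_mod_cast Nat.choose_pos h
    field_simp
  have h3 : W.w k ≤ W.w i * W.w (k - i) := by
    have := W.sub i (k - i)
    rwa [Nat.add_sub_cancel' h] at this
  calc W.c k * (k.choose i : ℝ) = W.w k * ((k.choose i : ℝ) / (k.factorial : ℝ)) := by
        unfold WW.c; ring
    _ = W.w k * (1 / (i.factorial * (k - i).factorial : ℝ)) := by rw [h2]
    _ ≤ (W.w i * W.w (k - i)) * (1 / (i.factorial * (k - i).factorial : ℝ)) := by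
        apply mul_le_mul_of_nonneg_right h3
        positivity
    _ = W.c i * W.c (k - i) := by
        unfold WW.c
        field_simp

/-- membership -/
def Mem (W : WW) (f : ℝ → ℂ) : Prop :=
  ContDiff ℝ ∞ f ∧ (∀ k, BddAbove (range fun t => ‖iteratedDeriv k f t‖)) ∧
    Summable (fun k => W.c k * sd k f)

/-- the norm -/
def nrm (W : WW) (f : ℝ → ℂ) : ℝ := ∑' k, W.c k * sd k f

lemma Mem.le_sd {W : WW} {f : ℝ → ℂ} (h : Mem W f) (k : ℕ) (t : ℝ) :
    ‖iteratedDeriv k f t‖ ≤ sd k f := le_ciSup (h.2.1 k) t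

lemma term_nonneg (W : WW) (f : ℝ → ℂ) (k : ℕ) : 0 ≤ W.c k * sd k f :=
  mul_nonneg (W.c_pos k).le (sd_nonneg k f)

lemma nrm_nonneg (W : WW) (f : ℝ → ℂ) : 0 ≤ nrm W f := tsum_nonneg (term_nonneg W f)

lemma mem_of_bound (W : WW) {f : ℝ → ℂ} {B : ℕ → ℝ} (hf : ContDiff ℝ ∞ f)
    (hB : ∀ k t, ‖iteratedDeriv k f t‖ ≤ B k) (hs : Summable fun k => W.c k * B k) :
    Mem W f ∧ nrm W f ≤ ∑' k, W.c k * B k := by
  have h1 : ∀ k, W.c k * sd k f ≤ W.c k * B k := fun k =>
    mul_le_mul_of_nonneg_left (sd_le (hB k)) (W.c_pos k).le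
  have h2 : Summable fun k => W.c k * sd k f :=
    Summable.of_nonneg_of_le (term_nonneg W f) h1 hs
  refine ⟨⟨hf, fun k => ⟨B k, ?_⟩, h2⟩, h2.tsum_le_tsum h1 hs⟩
  rintro _ ⟨t, rfl⟩
  exact hB k t

lemma cda {f : ℝ → ℂ} (hf : ContDiff ℝ ∞ f) (k : ℕ) (t : ℝ) : ContDiffAt ℝ k f t :=
  (hf.of_le (by exact_mod_cast le_top)).contDiffAt

lemma mem_add {W : WW} {f g : ℝ → ℂ} (hf : Mem W f) (hg : Mem W g) :
    Mem W (f + g) ∧ nrm W (f + g) ≤ nrm W f + nrm W g := by
  have hB : ∀ k t, ‖iteratedDeriv k (f + g) t‖ ≤ sd k f + sd k g := by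
    intro k t
    rw [iteratedDeriv_add (cda hf.1 k t) (cda hg.1 k t)]
    exact (norm_add_le _ _).trans (add_le_add (hf.le_sd k t) (hg.le_sd k t))
  have he : (fun k => W.c k * (sd k f + sd k g)) =
      fun k => W.c k * sd k f + W.c k * sd k g := by
    ext k; ring
  have hs : Summable fun k => W.c k * (sd k f + sd k g) := by
    rw [he]; exact hf.2.2.add hg.2.2
  have := mem_of_bound W (hf.1.add hg.1) hB hs
  refine ⟨this.1, this.2.trans (le_of_eq ?_)⟩
  rw [he, hf.2.2.tsum_add hg.2.2]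
  rfl

lemma mem_smul {W : WW} {f : ℝ → ℂ} (c : ℂ) (hf : Mem W f) :
    Mem W (c • f) ∧ nrm W (c • f) ≤ ‖c‖ * nrm W f := by
  have hB : ∀ k t, ‖iteratedDeriv k (c • f) t‖ ≤ ‖c‖ * sd k f := by
    intro k t
    rw [iteratedDeriv_const_smul_field, norm_smul]
    exact mul_le_mul_of_nonneg_left (hf.le_sd k t) (norm_nonneg c)
  have he : (fun k => W.c k * (‖c‖ * sd k f)) = fun k => ‖c‖ * (W.c k * sd k f) := by
    ext k; ring
  have hs : Summable fun k => W.c k * (‖c‖ * sd k f) := by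
    rw [he]; exact hf.2.2.mul_left _
  have := mem_of_bound W (hf.1.const_smul c) hB hs
  refine ⟨this.1, this.2.trans (le_of_eq ?_)⟩
  rw [he, tsum_mul_left]
  rfl

lemma mem_const (W : WW) (c : ℂ) : Mem W (fun _ => c) ∧ nrm W (fun _ => c) ≤ ‖c‖ := by
  have hB : ∀ k t, ‖iteratedDeriv k (fun _ : ℝ => c) t‖ ≤ if k = 0 then ‖c‖ else 0 := by
    intro k t
    rw [iteratedDeriv_const]
    split_ifs <;> simp
  have he : (fun k => W.c k * (if k = 0 then ‖c‖ else 0)) = fun k => if k = 0 then ‖c‖ else 0 := by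
    ext k
    split_ifs with h
    · rw [h, W.c_zero, one_mul]
    · simp
  have hs : HasSum (fun k => W.c k * (if k = 0 then ‖c‖ else 0)) ‖c‖ := by
    rw [he]
    exact hasSum_ite_eq 0 ‖c‖
  have := mem_of_bound W contDiff_const hB hs.summable
  exact ⟨this.1, this.2.trans (le_of_eq hs.tsum_eq)⟩

lemma mem_mul {W : WW} {f g : ℝ → ℂ} (hf : Mem W f) (hg : Mem W g) :
    Mem W (f * g) ∧ nrm W (f * g) ≤ nrm W f * nrm W g := by
  set B : ℕ → ℝ := fun k => ∑ i ∈ Finset.range (k + 1),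
    (k.choose i : ℝ) * sd i f * sd (k - i) g with hBdef
  have hB : ∀ k t, ‖iteratedDeriv k (f * g) t‖ ≤ B k := by
    intro k t
    have h1 := norm_iteratedFDeriv_mul_le (𝕜 := ℝ) (A := ℂ) hf.1 hg.1 t (n := k)
      (by exact_mod_cast le_top)
    simp_rw [norm_iteratedFDeriv_eq_norm_iteratedDeriv] at h1
    refine le_trans h1 ?_
    apply Finset.sum_le_sum
    intro i _
    have := hf.le_sd i t
    have := hg.le_sd (k - i) t
    have := sd_nonneg i f
    gcongr
  set C : ℕ → ℝ := fun k => ∑ i ∈ Finset.range (k + 1),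
    (W.c i * sd i f) * (W.c (k - i) * sd (k - i) g) with hC
  have hBC : ∀ k, W.c k * B k ≤ C k := by
    intro k
    rw [hBdef, hC]
    simp only
    rw [Finset.mul_sum]
    apply Finset.sum_le_sum
    intro i hi
    have hik : i ≤ k := Nat.lt_succ_iff.1 (Finset.mem_range.1 hi)
    calc W.c k * ((k.choose i : ℝ) * sd i f * sd (k - i) g)
        = (W.c k * (k.choose i : ℝ)) * (sd i f * sd (k - i) g) := by ring
      _ ≤ (W.c i * W.c (k - i)) * (sd i f * sd (k - i) g) :=
          mul_le_mul_of_nonneg_right (W.c_mul k i hik)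
            (mul_nonneg (sd_nonneg _ _) (sd_nonneg _ _))
      _ = _ := by ring
  have hB0 : ∀ k, 0 ≤ B k := by
    intro k
    apply Finset.sum_nonneg
    intro i _
    have := sd_nonneg i f
    have := sd_nonneg (k - i) g
    positivity
  have hsf : Summable fun k => ‖W.c k * sd k f‖ := hf.2.2.norm
  have hsg : Summable fun k => ‖W.c k * sd k g‖ := hg.2.2.norm
  have hCs : Summable C := (summable_norm_sum_mul_range_of_summable_norm hsf hsg).of_norm
  have hCt : ∑' k, C k = nrm W f * nrm W g :=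
    (tsum_mul_tsum_eq_tsum_sum_range_of_summable_norm hsf hsg).symm
  have hs : Summable fun k => W.c k * B k :=
    Summable.of_nonneg_of_le (fun k => mul_nonneg (W.c_pos k).le (hB0 k)) hBC hCs
  have := mem_of_bound W (hf.1.mul hg.1) hB hs
  refine ⟨this.1, this.2.trans ?_⟩
  rw [← hCt]
  exact hs.tsum_le_tsum hBC hCs

lemma mem_shift {W : WW} {f : ℝ → ℂ} (u : ℝ) (hf : Mem W f) :
    Mem W (fun t => f (t - u)) ∧ nrm W (fun t => f (t - u)) ≤ nrm W f := by
  have hB : ∀ k t, ‖iteratedDeriv k (fun t => f (t - u)) t‖ ≤ sd k f := by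
    intro k t
    rw [iteratedDeriv_comp_sub_const]
    exact hf.le_sd k (t - u)
  exact mem_of_bound W (hf.1.comp (contDiff_id.sub contDiff_const)) hB hf.2.2

attribute [-instance] instTopologicalSpaceSubtype instUniformSpaceSubtype

/-- the algebra -/
def alg (W : WW) : Subalgebra ℂ (ℝ → ℂ) where
  carrier := {f | Mem W f}
  mul_mem' := fun hf hg => (mem_mul hf hg).1
  add_mem' := fun hf hg => (mem_add hf hg).1
  algebraMap_mem' := fun c => (mem_const W c).1

/-- the ring norm -/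
def rn (W : WW) : RingNorm (alg W) where
  toFun := fun f => nrm W f.1
  map_zero' := by
    have := (mem_const W 0).2
    rw [norm_zero] at this
    exact le_antisymm this (nrm_nonneg W _)
  add_le' := fun f g => (mem_add f.2 g.2).2
  neg' := by
    intro f
    have h : ∀ f : alg W, nrm W (-f).1 ≤ nrm W f.1 := by
      intro f
      have := (mem_smul (-1 : ℂ) f.2).2
      have h2 : ((-1 : ℂ) • (f.1)) = (-f).1 := by
        simp
      rw [h2] at this
      simpa using this
    refine le_antisymm (h f) ?_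
    have := h (-f)
    rwa [neg_neg] at this
  mul_le' := fun f g => (mem_mul f.2 g.2).2
  eq_zero_of_map_eq_zero' := by
    intro f hf
    have hf2 : Mem W f.1 := f.2
    have h0 : W.c 0 * sd 0 f.1 ≤ nrm W f.1 :=
      hf2.2.2.le_tsum 0 (fun k _ => term_nonneg W _ k)
    rw [W.c_zero, one_mul] at h0
    have h1 : sd 0 f.1 ≤ 0 := h0.trans (le_of_eq hf)
    apply Subtype.ext
    ext t
    have h2 := hf2.le_sd 0 t
    rw [iteratedDeriv_zero] at h2
    have h3 : ‖f.1 t‖ ≤ 0 := h2.trans h1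
    simpa using h3

instance inst1 (W : WW) : NormedCommRing (alg W) :=
  { (rn W).toNormedRing with
    mul_comm := fun a b => mul_comm a b }

lemma norm_def (W : WW) (f : alg W) : ‖f‖ = nrm W f.1 := rfl

instance inst2 (W : WW) : NormedAlgebra ℂ (alg W) where
  norm_smul_le := fun c f => (mem_smul c f.2).2

instance inst4 (W : WW) : NormOneClass (alg W) where
  norm_one := by
    rw [norm_def]
    have h1 : ((1 : alg W)).1 = fun _ => (1 : ℂ) := rfl
    rw [h1]
    apply le_antisymm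
    · simpa using (mem_const W 1).2
    · have hm := (mem_const W 1).1
      have h0 : W.c 0 * sd 0 (fun _ => (1 : ℂ)) ≤ nrm W (fun _ => (1 : ℂ)) :=
        hm.2.2.le_tsum 0 (fun k _ => term_nonneg W _ k)
      rw [W.c_zero, one_mul] at h0
      have h2 := hm.le_sd 0 0
      rw [iteratedDeriv_zero] at h2
      have : ‖(1 : ℂ)‖ ≤ nrm W (fun _ => (1 : ℂ)) := h2.trans h0
      simpa using this

lemma norm_ge (W : WW) (f : alg W) (k : ℕ) : W.c k * sd k f.1 ≤ ‖f‖ := by
  have hf2 : Mem W f.1 := f.2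
  exact hf2.2.2.le_tsum k (fun k _ => term_nonneg W _ k)

lemma ev_le' (W : WW) (t : ℝ) (f : alg W) : ‖f.1 t‖ ≤ ‖f‖ := by
  have hf2 : Mem W f.1 := f.2
  have h0 := norm_ge W f 0
  rw [W.c_zero, one_mul] at h0
  have h2 := hf2.le_sd 0 t
  rw [iteratedDeriv_zero] at h2
  exact h2.trans h0

/-- sums of absolutely convergent series -/
lemma series (W : WW) (u : ℕ → alg W) (hu : Summable fun n => ‖u n‖) :
    Mem W (fun t => ∑' n, (u n).1 t) ∧
      nrm W (fun t => ∑' n, (u n).1 t) ≤ ∑' n, ‖u n‖ := by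
  have hv : ∀ k, Summable fun n => sd k (u n).1 := by
    intro k
    have h1 : Summable fun n => (W.c k)⁻¹ * ‖u n‖ := hu.mul_left _
    refine Summable.of_nonneg_of_le (fun n => sd_nonneg _ _) (fun n => ?_) h1
    have h2 := norm_ge W (u n) k
    have h3 := W.c_pos k
    rw [inv_mul_eq_div, le_div_iff₀ h3]
    linarith
  have hbd : ∀ (k : ℕ) (i : ℕ) (x : ℝ), ‖iteratedFDeriv ℝ k (fun t => (u i).1 t) x‖ ≤
      sd k (u i).1 := by
    intro k i x
    rw [norm_iteratedFDeriv_eq_norm_iteratedDeriv]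
    have hm : Mem W (u i).1 := (u i).2
    exact hm.le_sd k x
  have hcd : ∀ i, ContDiff ℝ ((⊤ : ℕ∞) : WithTop ℕ∞) (fun t => (u i).1 t) := by
    intro i
    have hm : Mem W (u i).1 := (u i).2
    exact hm.1
  have hF : ContDiff ℝ ∞ (fun t => ∑' n, (u n).1 t) :=
    contDiff_tsum (N := ⊤) (v := fun k n => sd k (u n).1) hcd (fun k _ => hv k)
      (fun k i x _ => hbd k i x)
  have hB : ∀ k t, ‖iteratedDeriv k (fun t => ∑' n, (u n).1 t) t‖ ≤ ∑' n, sd k (u n).1 := by
    intro k t
    rw [← norm_iteratedFDeriv_eq_norm_iteratedDeriv,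
      iteratedFDeriv_tsum_apply (N := ⊤) (v := fun k n => sd k (u n).1) hcd (fun k _ => hv k)
      (fun k i x _ => hbd k i x) le_top t]
    exact tsum_of_norm_bounded (hv k).hasSum (fun i => hbd k i t)
  let a : ℕ × ℕ → ℝ := fun p => W.c p.2 * sd p.2 (u p.1).1
  have ha0 : 0 ≤ a := fun p => term_nonneg W _ p.2
  have ha : Summable a := by
    rw [summable_prod_of_nonneg ha0]
    refine ⟨fun n => ?_, ?_⟩
    · have hm : Mem W (u n).1 := (u n).2
      exact hm.2.2
    · exact hu
  have ha' : Summable (fun p : ℕ × ℕ => a p.swap) := ha.prod_symm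
  have hsw : Summable fun k => ∑' n, a (n, k) := by
    have := (summable_prod_of_nonneg (f := fun p : ℕ × ℕ => a p.swap) (fun p => ha0 p.swap)).1 ha'
    exact this.2
  have he : (fun k => W.c k * ∑' n, sd k (u n).1) = fun k => ∑' n, a (n, k) := by
    ext k
    rw [← tsum_mul_left]
  have hs : Summable fun k => W.c k * ∑' n, sd k (u n).1 := by
    rw [he]; exact hsw
  have := mem_of_bound W hF hB hs
  refine ⟨this.1, this.2.trans (le_of_eq ?_)⟩
  rw [he]
  have hc : ∑' k, ∑' n, a (n, k) = ∑' n, ∑' k, a (n, k) :=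
    (Summable.tsum_comm (f := fun n k => a (n, k)) ha)
  rw [hc]
  rfl

lemma coe_sum (W : WW) (u : ℕ → alg W) (n : ℕ) (t : ℝ) :
    (∑ i ∈ Finset.range n, u i : alg W).1 t = ∑ i ∈ Finset.range n, (u i).1 t := by
  have h1 : (∑ i ∈ Finset.range n, u i : alg W).1 = ∑ i ∈ Finset.range n, (u i).1 := by
    exact map_sum (alg W).val u _
  rw [h1, Finset.sum_apply]

instance inst3 (W : WW) : CompleteSpace (alg W) := by
  apply NormedAddCommGroup.completeSpace_of_summable_imp_tendsto
  intro u hu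
  refine ⟨⟨fun t => ∑' n, (u n).1 t, (series W u hu).1⟩, ?_⟩
  rw [tendsto_iff_norm_sub_tendsto_zero]
  have h1 : ∀ n, ‖(∑ i ∈ Finset.range n, u i) -
      (⟨fun t => ∑' n, (u n).1 t, (series W u hu).1⟩ : alg W)‖ ≤ ∑' i, ‖u (i + n)‖ := by
    intro n
    rw [← norm_neg, neg_sub]
    have hun : Summable fun i => ‖u (i + n)‖ := (summable_nat_add_iff n).2 hu
    have h2 := (series W (fun i => u (i + n)) hun).2
    refine le_trans (le_of_eq ?_) h2
    rw [norm_def]
    congr 1
    ext t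
    have h3 : ((⟨fun t => ∑' n, (u n).1 t, (series W u hu).1⟩ : alg W) -
        ∑ i ∈ Finset.range n, u i).1 t = ∑' n, (u n).1 t - ∑ i ∈ Finset.range n, (u i).1 t := by
      rw [← coe_sum]
      rfl
    rw [h3]
    have hst : Summable fun n => (u n).1 t :=
      Summable.of_norm_bounded hu (fun i => ev_le' W t (u i))
    have h4 := hst.sum_add_tsum_nat_add n
    rw [← h4]
    ring
  exact squeeze_zero (fun n => norm_nonneg _) h1 (tendsto_sum_nat_add fun i => ‖u i‖)

/-- evaluation -/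
def evA (W : WW) (t : ℝ) : alg W →ₐ[ℂ] ℂ := (Pi.evalAlgHom ℂ (fun _ : ℝ => ℂ) t).comp (alg W).val

lemma evA_apply (W : WW) (t : ℝ) (f : alg W) : evA W t f = f.1 t := rfl

/-- translation -/
def SS (W : WW) (u : ℝ) : alg W →ₐ[ℂ] alg W where
  toFun := fun f => ⟨fun t => f.1 (t - u), (mem_shift u f.2).1⟩
  map_one' := rfl
  map_mul' := fun _ _ => rfl
  map_zero' := rfl
  map_add' := fun _ _ => rfl
  commutes' := fun _ => rfl

lemma SS_apply (W : WW) (u t : ℝ) (f : alg W) : (SS W u f).1 t = f.1 (t - u) := rfl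

lemma diffBound (W : WW) (f : alg W) (u v : ℝ) (k : ℕ) :
    sd k (SS W u f - SS W v f).1 ≤ 2 * sd k f.1 ∧
      sd k (SS W u f - SS W v f).1 ≤ sd (k + 1) f.1 * |u - v| := by
  have hm : Mem W f.1 := f.2
  have hd : ∀ t, iteratedDeriv k (SS W u f - SS W v f).1 t =
      iteratedDeriv k f.1 (t - u) - iteratedDeriv k f.1 (t - v) := by
    intro t
    have h1 : (SS W u f - SS W v f).1 = (fun t => f.1 (t - u)) - fun t => f.1 (t - v) := rfl
    have hu : ContDiff ℝ ∞ (fun t => f.1 (t - u)) := (mem_shift u hm).1.1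
    have hv : ContDiff ℝ ∞ (fun t => f.1 (t - v)) := (mem_shift v hm).1.1
    rw [h1, iteratedDeriv_sub (cda hu k t) (cda hv k t), iteratedDeriv_comp_sub_const,
      iteratedDeriv_comp_sub_const]
  constructor
  · apply sd_le
    intro t
    rw [hd]
    refine (norm_sub_le _ _).trans ?_
    have h1 := hm.le_sd k (t - u)
    have h2 := hm.le_sd k (t - v)
    linarith
  · apply sd_le
    intro t
    rw [hd]
    have h1 : ∀ x ∈ (Set.univ : Set ℝ), DifferentiableAt ℝ (iteratedDeriv k f.1) x := by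
      intro x _
      exact (hm.1.differentiable_iteratedDeriv k (by exact_mod_cast ENat.natCast_lt_top k)) x
    have h2 : ∀ x ∈ (Set.univ : Set ℝ), ‖deriv (iteratedDeriv k f.1) x‖ ≤ sd (k + 1) f.1 := by
      intro x _
      rw [← iteratedDeriv_succ]
      exact hm.le_sd (k + 1) x
    have h3 := Convex.norm_image_sub_le_of_norm_deriv_le h1 h2 convex_univ
      (Set.mem_univ (t - v)) (Set.mem_univ (t - u))
    refine h3.trans (le_of_eq ?_)
    congr 1
    rw [Real.norm_eq_abs, abs_sub_comm u v]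
    congr 1
    ring

lemma SS_cont (W : WW) (f : alg W) : Continuous fun u => SS W u f := by
  rw [continuous_iff_continuousAt]
  intro v
  unfold ContinuousAt
  rw [tendsto_iff_norm_sub_tendsto_zero]
  have hm : Mem W f.1 := f.2
  have h1 : Tendsto (fun u => ∑' k, W.c k * sd k (SS W u f - SS W v f).1) (𝓝 v)
      (𝓝 (∑' _k : ℕ, (0 : ℝ))) := by
    apply tendsto_tsum_of_dominated_convergence (bound := fun k => 2 * (W.c k * sd k f.1))
      (hm.2.2.mul_left 2)
    · intro k
      have h2 : Tendsto (fun u => W.c k * (sd (k + 1) f.1 * |u - v|)) (𝓝 v) (𝓝 0) := by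
        have h3 : Continuous fun u : ℝ => W.c k * (sd (k + 1) f.1 * |u - v|) := by fun_prop
        have h4 := h3.tendsto v
        simpa using h4
      refine squeeze_zero (fun u => term_nonneg W _ k) (fun u => ?_) h2
      exact mul_le_mul_of_nonneg_left (diffBound W f u v k).2 (W.c_pos k).le
    · refine Filter.Eventually.of_forall fun u k => ?_
      rw [Real.norm_of_nonneg (term_nonneg W _ k)]
      have h5 := mul_le_mul_of_nonneg_left (diffBound W f u v k).1 (W.c_pos k).le
      linarith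
  rw [tsum_zero] at h1
  exact h1

/-- the package -/
def pack (W : WW) : SA where
  A := alg W
  ev := evA W
  S := SS W
  ev_le := fun t f => ev_le' W t f
  S_le := fun u f => (mem_shift u f.2).2
  ev_S := fun _ _ _ => rfl
  S_cont := SS_cont W
  ext := fun a b h => Subtype.ext (funext h)
  smooth := fun a => a.2.1

theorem th : S_SA1 := by
  intro w h0 hp hsub
  let W : WW := ⟨w, h0, hp, hsub⟩
  refine ⟨pack W, ?_, ?_⟩
  · intro (a : alg W)
    have hm : Mem W a.1 := a.2
    refine ⟨fun k => sd k a.1, fun k t => hm.le_sd k t, ?_⟩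
    exact hm.2.2.hasSum
  · intro f B hf hB hs
    have := mem_of_bound W hf hB hs
    exact ⟨(⟨f, this.1⟩ : alg W), fun _ => rfl, this.2⟩

end Pool.Agent.W384.UN
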